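import Pool.Agent.Helper446.CB.Min

/-!
Definability of minimality in the lattice of `Π⁰₁` classes.
-/

namespace Pool.Agent.Results.MP_aad418_lc.MinimalityDefinable

open Pool.Agent.Helper446.CB

/-- The family of minimal `Π⁰₁` classes is definable in the lattice of `Π⁰₁` classes. -/
theorem result : IsDefinable {P : EPi | IsMinimal P} := isDefinable_of_def1 def_minimal

end Pool.Agent.Results.MP_aad418_lc.MinimalityDefinable
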